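import Pool.Agent.Helper7.Proj.Main

set_option autoImplicit false

namespace Pool.Agent.Results.MP_705522_gt.NearTwo

open MeasureTheory

/-- The closed unit ball `B_p^n` of `ℓ_p^n`, as a subset of Euclidean space `ℝⁿ`. -/
def ball (p : ℝ) (n : ℕ) : Set (EuclideanSpace ℝ (Fin n)) := {x | ∑ i, |x i| ^ p ≤ 1}

/-- The hyperplane `u^⊥`. -/
noncomputable def hyp {n : ℕ} (u : EuclideanSpace ℝ (Fin n)) :
    Submodule ℝ (EuclideanSpace ℝ (Fin n)) := (ℝ ∙ u)ᗮ

/-- The orthogonal projection of `B_p^n` onto `u^⊥`: the set of `y ∈ u^⊥` such that the line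
`y + ℝ u` meets `B_p^n`. -/
def shadow (p : ℝ) {n : ℕ} (u : EuclideanSpace ℝ (Fin n)) : Set (hyp u) :=
  {y | ∃ s : ℝ, y.1 + s • u ∈ ball p n}

/-- `(n-1)`-dimensional Lebesgue measure on the Euclidean space `u^⊥`. -/
noncomputable def hypVol {n : ℕ} (u : EuclideanSpace ℝ (Fin n)) : Measure (hyp u) := volume

/-- The `(n-1)`-dimensional volume of the orthogonal projection of `B_p^n` onto `u^⊥`. -/
noncomputable def projVol (p : ℝ) {n : ℕ} (u : EuclideanSpace ℝ (Fin n)) : ENNReal :=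
  hypVol u (shadow p u)

lemma shadow_eq (p : ℝ) {n : ℕ} (u : EuclideanSpace ℝ (Fin n)) :
    shadow p u = (ℝ ∙ u)ᗮ.orthogonalProjectionOnto '' Pool.Agent.Helper7.Proj.Bp p n := by
  ext y
  constructor
  · rintro ⟨s, hs⟩
    refine ⟨y.1 + s • u, hs, ?_⟩
    rw [map_add]
    have h1 : (ℝ ∙ u)ᗮ.orthogonalProjectionOnto (s • u) = 0 := by
      rw [Submodule.orthogonalProjectionOnto_eq_zero_iff]
      rw [Submodule.orthogonal_orthogonal]
      exact Submodule.smul_mem _ _ (Submodule.mem_span_singleton_self u)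
    have h2 : (ℝ ∙ u)ᗮ.orthogonalProjectionOnto (y.1) = y :=
      Submodule.orthogonalProjectionOnto_mem_subspace_eq_self y
    rw [h1, add_zero]
    exact h2
  · rintro ⟨x, hx, rfl⟩
    obtain ⟨s, hs⟩ := Submodule.mem_span_singleton.1 ((ℝ ∙ u).starProjection_apply_mem x)
    refine ⟨s, ?_⟩
    have : ((ℝ ∙ u)ᗮ.orthogonalProjectionOnto x : EuclideanSpace ℝ (Fin n)) + s • u = x := by
      rw [hs, Submodule.orthogonalProjectionOnto_orthogonal]
      simp
    show ((ℝ ∙ u)ᗮ.orthogonalProjectionOnto x : EuclideanSpace ℝ (Fin n)) + s • u ∈ ball p n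
    rw [this]
    exact hx

/-- There is `p₀ < 2` such that for every `p ∈ (p₀, 2)`, every `n ≥ 1` and every unit vector
`u ∈ ℝⁿ`: the orthogonal projection of `B_p^n = {x : ∑ |x_i|^p ≤ 1}` onto `u^⊥` has minimal
`(n-1)`-dimensional volume among all hyperplane projections if and only if `|u_i| = 1/√n` for all
`i`, i.e. `u` points along a main diagonal. -/
theorem result : ∃ p₀ : ℝ, 1 < p₀ ∧ p₀ < 2 ∧ ∀ p : ℝ, p₀ < p → p < 2 → ∀ n : ℕ, 0 < n →
    ∀ u : EuclideanSpace ℝ (Fin n), ‖u‖ = 1 →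
      ((∀ v : EuclideanSpace ℝ (Fin n), ‖v‖ = 1 → projVol p u ≤ projVol p v) ↔
        ∀ i, |u i| = 1 / √(n : ℝ)) := by
  have h : ∀ (p : ℝ) (n : ℕ) (u : EuclideanSpace ℝ (Fin n)), projVol p u =
      (volume : Measure (ℝ ∙ u)ᗮ)
        ((ℝ ∙ u)ᗮ.orthogonalProjectionOnto '' Pool.Agent.Helper7.Proj.Bp p n) := by
    intro p n u
    rw [← shadow_eq]
    rfl
  simp only [h]
  exact Pool.Agent.Helper7.Proj.mainENN

end Pool.Agent.Results.MP_705522_gt.NearTwo
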