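import Pool.Agent.Helper28.NO.Vol
import Pool.Agent.Helper27.NO.J
import Pool.Agent.Helper27.NO.R2
import Pool.Agent.Helper31.NO.W
import Pool.Agent.Helper33.NO.D3a
import Pool.Agent.Helper35.NO.D3b
import Pool.Agent.Helper50.NO.PackB
import Pool.Agent.Helper75.NO.I
import Pool.Agent.Helper77.NO.R1
import Pool.Agent.Helper88.NO.D12
import Pool.Agent.Helper88.NO.D4
import Pool.Agent.Helper90.NO.AG
import Pool.Agent.Helper90.NO.T
import Pool.Agent.Helper96.NO.E1
import Pool.Agent.Helper96.NO.R345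
import Pool.Agent.Helper53.Pq.Final
import Pool.Agent.Helper89.Pq.MOM
import Pool.Agent.Helper88.Pq.M4
import Pool.Agent.Helper45.Pq.TV
import Pool.Agent.Helper86.Pq.B4
import Pool.Agent.Helper82.Pq.NUM
import Pool.Agent.Helper65.Pq.C0
import Pool.Agent.Helper56.Pq.FN
import Pool.Agent.Helper69.Pq.A1
import Pool.Agent.Helper6.Pq.HB
import Pool.Agent.Helper37.Pq.E2
import Pool.Agent.Helper73.Pq.LL
import Pool.Agent.Helper11.Pq.QQ
import Pool.Agent.Helper67.Pq.IAB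
import Pool.Agent.Helper13.Pq.I1
import Pool.Agent.Helper19.Pq.IID
import Pool.Agent.Helper61.Pq.IIS
import Pool.Agent.Helper58.Pq.NEAR
import Pool.Agent.Helper77.Pq.DD
import Pool.Agent.Helper63.Pq.AGVOL
import Pool.Agent.Helper25.Pq.CLT

set_option autoImplicit false

namespace Pool.Agent.Results.MP_705522_gt.UpToFourThirds

open MeasureTheory

/-- The closed unit ball `B_p^n` of `ℓ_p^n`, as a subset of Euclidean space `ℝⁿ`. -/
def ball (p : ℝ) (n : ℕ) : Set (EuclideanSpace ℝ (Fin n)) := {x | ∑ i, |x i| ^ p ≤ 1}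

/-- The hyperplane `u^⊥`. -/
noncomputable def hyp {n : ℕ} (u : EuclideanSpace ℝ (Fin n)) :
    Submodule ℝ (EuclideanSpace ℝ (Fin n)) := (ℝ ∙ u)ᗮ

/-- The orthogonal projection of `B_p^n` onto `u^⊥`: the set of `y ∈ u^⊥` such that the line
`y + ℝ u` meets `B_p^n`. -/
def shadow (p : ℝ) {n : ℕ} (u : EuclideanSpace ℝ (Fin n)) : Set (hyp u) :=
  {y | ∃ s : ℝ, y.1 + s • u ∈ ball p n}

/-- `(n-1)`-dimensional Lebesgue measure on the Euclidean space `u^⊥`. -/
noncomputable def hypVol {n : ℕ} (u : EuclideanSpace ℝ (Fin n)) : Measure (hyp u) := volume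

/-- The `(n-1)`-dimensional volume of the orthogonal projection of `B_p^n` onto `u^⊥`. -/
noncomputable def projVol (p : ℝ) {n : ℕ} (u : EuclideanSpace ℝ (Fin n)) : ENNReal :=
  hypVol u (shadow p u)

/-- `(n-1)`-dimensional volume of the ball `B_p^(n-1)`. -/
noncomputable def ballVol (p : ℝ) (n : ℕ) : ENNReal :=
  (volume : Measure (EuclideanSpace ℝ (Fin (n - 1)))) (ball p (n - 1))

/-- Two different coordinates of `u` have absolute value `1/√2`. -/
def IsPairDiagonal {n : ℕ} (u : EuclideanSpace ℝ (Fin n)) : Prop :=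
  ∃ i j, i ≠ j ∧ |u i| = 1 / √2 ∧ |u j| = 1 / √2

/-- `u` is a unit vector at which the volume of the projection onto `u^⊥` is minimal. -/
def IsMinimal (p : ℝ) {n : ℕ} (u : EuclideanSpace ℝ (Fin n)) : Prop :=
  ‖u‖ = 1 ∧ ∀ v : EuclideanSpace ℝ (Fin n), ‖v‖ = 1 → projVol p u ≤ projVol p v

lemma shadow_eq (p : ℝ) {n : ℕ} (u : EuclideanSpace ℝ (Fin n)) :
    shadow p u = (ℝ ∙ u)ᗮ.orthogonalProjectionOnto '' Pool.Agent.Helper7.Proj.Bp p n := by
  ext y
  constructor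
  · rintro ⟨s, hs⟩
    refine ⟨y.1 + s • u, hs, ?_⟩
    rw [map_add]
    have h1 : (ℝ ∙ u)ᗮ.orthogonalProjectionOnto (s • u) = 0 := by
      rw [Submodule.orthogonalProjectionOnto_eq_zero_iff]
      rw [Submodule.orthogonal_orthogonal]
      exact Submodule.smul_mem _ _ (Submodule.mem_span_singleton_self u)
    have h2 : (ℝ ∙ u)ᗮ.orthogonalProjectionOnto (y.1) = y :=
      Submodule.orthogonalProjectionOnto_mem_subspace_eq_self y
    rw [h1, add_zero]
    exact h2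
  · rintro ⟨x, hx, rfl⟩
    obtain ⟨s, hs⟩ := Submodule.mem_span_singleton.1 ((ℝ ∙ u).starProjection_apply_mem x)
    refine ⟨s, ?_⟩
    have : ((ℝ ∙ u)ᗮ.orthogonalProjectionOnto x : EuclideanSpace ℝ (Fin n)) + s • u = x := by
      rw [hs, Submodule.orthogonalProjectionOnto_orthogonal]
      simp
    show ((ℝ ∙ u)ᗮ.orthogonalProjectionOnto x : EuclideanSpace ℝ (Fin n)) + s • u ∈ ball p n
    rw [this]
    exact hx

lemma projVol_eq (p : ℝ) {n : ℕ} (u : EuclideanSpace ℝ (Fin n)) : projVol p u =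
    (volume : Measure (ℝ ∙ u)ᗮ)
      ((ℝ ∙ u)ᗮ.orthogonalProjectionOnto '' Pool.Agent.Helper7.Proj.Bp p n) := by
  rw [← shadow_eq]
  rfl

/-- The packets for `q ≥ 6`. -/
theorem packets : Pool.Agent.Helper28.NO.Pk2 where
  P :=
    { I := Pool.Agent.Helper75.NO.goalI Pool.Agent.Helper27.NO.goalExp Pool.Agent.Helper27.NO.goalJ
      W := Pool.Agent.Helper31.NO.gw
      AG := Pool.Agent.Helper90.NO.goalAG
      T := Pool.Agent.Helper90.NO.goalT
      B := Pool.Agent.Helper50.NO.goalB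
      R1 := Pool.Agent.Helper77.NO.goalR1
      R2 := Pool.Agent.Helper27.NO.goalR2
      R3 := Pool.Agent.Helper96.NO.goalR3
      R4 := Pool.Agent.Helper96.NO.goalR4
      R5 := Pool.Agent.Helper96.NO.goalR5 }
  D1 := Pool.Agent.Helper88.NO.goalD1
  base := Pool.Agent.Helper88.NO.goalD4 Pool.Agent.Helper88.NO.goalD1 Pool.Agent.Helper88.NO.goalD2
    Pool.Agent.Helper33.NO.goalD3a Pool.Agent.Helper35.NO.goalD3b
  E1 := Pool.Agent.Helper96.NO.goalE1
  D := Pool.Agent.Helper13.Proj.pktD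
  E := Pool.Agent.Helper85.ProjE.pktE

/-- The packets for `4 ≤ q ≤ 6`. -/
theorem packetsQ : Pool.Agent.Helper53.Pq.Pk where
  num := Pool.Agent.Helper82.Pq.gNum
  c0 := Pool.Agent.Helper65.Pq.gC0
  fn := Pool.Agent.Helper56.Pq.gFn Pool.Agent.Helper65.Pq.gC0
  a1 := Pool.Agent.Helper69.Pq.gA1
  hb := Pool.Agent.Helper6.Pq.gH
  e2 := Pool.Agent.Helper37.Pq.gE2
  ll := Pool.Agent.Helper73.Pq.gLL
  qq := Pool.Agent.Helper11.Pq.gQ
  ia := Pool.Agent.Helper67.Pq.gIa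
  ib := Pool.Agent.Helper67.Pq.gIb
  i1 := Pool.Agent.Helper13.Pq.gI1
  iid := Pool.Agent.Helper19.Pq.gIIdir
  iis := Pool.Agent.Helper61.Pq.gIIsc
  law := Pool.Agent.Helper58.Pq.gLaw
  near := Pool.Agent.Helper58.Pq.gNear
  dd := Pool.Agent.Helper77.Pq.gD
  ag := Pool.Agent.Helper63.Pq.gAGr

theorem packetsF : Pool.Agent.Helper53.Pq.PkF where
  main := Pool.Agent.Helper53.Pq.goalMain packetsQ
  b4 := Pool.Agent.Helper86.Pq.gB4 Pool.Agent.Helper89.Pq.gMom Pool.Agent.Helper88.Pq.gM4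
    Pool.Agent.Helper45.Pq.gTV
  vol := Pool.Agent.Helper63.Pq.gVol
  clt := Pool.Agent.Helper25.Pq.gCLT Pool.Agent.Helper82.Pq.gNum Pool.Agent.Helper65.Pq.gC0
    Pool.Agent.Helper89.Pq.gMom

lemma keyEq (p : ℝ) (hp : 1 < p) (hp2 : p ≤ 4 / 3) (m : ℕ)
    (u : EuclideanSpace ℝ (Fin (m + 1))) (hu : ‖u‖ = 1) :
    ENNReal.ofReal ((2 : ℝ) ^ (1 / 2 - 1 / p)) * ballVol p (m + 1) ≤ projVol p u ∧
      (projVol p u = ENNReal.ofReal ((2 : ℝ) ^ (1 / 2 - 1 / p)) * ballVol p (m + 1) ↔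
        IsPairDiagonal u) := by
  rw [projVol_eq]
  rcases le_total p (6 / 5) with h | h
  · exact Pool.Agent.Helper28.NO.finalENN packets hp h m u hu
  · exact Pool.Agent.Helper53.Pq.finalENN packetsF h hp2 m u hu

lemma exists_pair {m : ℕ} (hm : 1 ≤ m) : ∃ w : EuclideanSpace ℝ (Fin (m + 1)), ‖w‖ = 1 ∧
    IsPairDiagonal w := by
  have hne : (0 : Fin (m + 1)) ≠ Fin.last m := by
    intro h
    have := congrArg Fin.val h
    simp at this
    omega
  refine ⟨EuclideanSpace.single 0 (1 / √2) + EuclideanSpace.single (Fin.last m) (1 / √2), ?_,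
    0, Fin.last m, hne, ?_, ?_⟩
  · rw [EuclideanSpace.norm_eq, Real.sqrt_eq_one]
    rw [← Finset.sum_subset (Finset.subset_univ ({0, Fin.last m} : Finset (Fin (m + 1))))]
    · rw [Finset.sum_pair hne]
      simp [hne, hne.symm]
      norm_num
    · intro k _ hk
      simp only [Finset.mem_insert, Finset.mem_singleton, not_or] at hk
      simp [hk.1, hk.2]
  · simp [hne]
  · simp [hne.symm]

/-- Let `1 < p < 2`.  Then `p ≤ 4/3` if and only if, for every `n ≥ 2`: the minimum of the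
`(n-1)`-volume of the orthogonal projection of `B_p^n` onto `u^⊥`, over all unit vectors `u`, is
attained and equals `2^(1/2-1/p) · vol_(n-1)(B_p^(n-1))`, and a unit vector `u` is a minimiser if
and only if two of its coordinates have absolute value `1/√2` (so that all the others vanish),
i.e. `u = (± e_i ± e_j)/√2`. -/
theorem result : ∀ p : ℝ, 1 < p → p < 2 →
    (p ≤ 4 / 3 ↔ ∀ n : ℕ, 2 ≤ n →
      (IsLeast {v : ENNReal | ∃ u : EuclideanSpace ℝ (Fin n), ‖u‖ = 1 ∧ projVol p u = v}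
        (ENNReal.ofReal ((2 : ℝ) ^ (1 / 2 - 1 / p)) * ballVol p n) ∧
      ∀ u : EuclideanSpace ℝ (Fin n), IsMinimal p u ↔ ‖u‖ = 1 ∧ IsPairDiagonal u)) := by
  intro p hp hp2
  constructor
  · intro hp3 n hn
    obtain ⟨m, rfl⟩ : ∃ m, n = m + 1 := ⟨n - 1, by omega⟩
    have hm : 1 ≤ m := by omega
    have key := keyEq p hp hp3 m
    obtain ⟨w, hw, hwd⟩ := exists_pair hm
    have hwv := (key w hw).2.2 hwd
    refine ⟨⟨⟨w, hw, hwv⟩, ?_⟩, fun u => ⟨fun h => ⟨h.1, ?_⟩, fun h => ⟨h.1, ?_⟩⟩⟩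
    · rintro _ ⟨u, hu, rfl⟩
      exact (key u hu).1
    · rw [← (key u h.1).2]
      exact le_antisymm (hwv ▸ h.2 w hw) (key u h.1).1
    · intro v hv
      rw [((key u h.1).2).2 h.2]
      exact (key v hv).1
  · intro h
    by_contra hcon
    obtain ⟨n0, h0⟩ := Pool.Agent.Helper53.Pq.sharp packetsF (not_le.1 hcon) hp2
    obtain ⟨u, hu, hd⟩ := exists_pair (m := n0 + 1) (by omega)
    have hmin := ((h (n0 + 1 + 1) (by omega)).2 u).2 ⟨hu, hd⟩
    obtain ⟨v, hv, _, hlt⟩ := h0 (n0 + 1) (by omega) u hu hd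
    rw [← projVol_eq, ← projVol_eq] at hlt
    exact absurd (hmin.2 v hv) (not_le.2 hlt)

end Pool.Agent.Results.MP_705522_gt.UpToFourThirds
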